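import Pool.Agent.Run7.h900.BR.Defs

/-!
# MP_f81df4_al (helper900, project BR), pieces GEN and UNIV (helper888)
-/

set_option autoImplicit false

open Pool.Agent.Run7.h900.BR

namespace Pool.Agent.Run7.h888.BR

theorem t_GEN : S_GEN := by
  intro C _ _ c M _ _ _ _ _
  have hcomm : ∀ m : M, ∀ x y : Subgroup.zpowers m, x * y = y * x := by
    rintro m ⟨_, ⟨a, rfl⟩⟩ ⟨_, ⟨b, rfl⟩⟩
    apply Subtype.ext
    exact zpow_mul_comm m a b
  constructor
  · intro hU m
    letI : CommGroup (Subgroup.zpowers m).topologicalClosure :=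
      (Subgroup.zpowers m).commGroupTopologicalClosure (hcomm m)
    have hcl : IsClosed ((Subgroup.zpowers m).topologicalClosure : Set M) :=
      (Subgroup.zpowers m).isClosed_topologicalClosure
    haveI : CompactSpace (Subgroup.zpowers m).topologicalClosure := hcl.isClosedEmbedding_subtypeVal.compactSpace
    have hm : m ∈ (Subgroup.zpowers m).topologicalClosure :=
      (Subgroup.zpowers m).le_topologicalClosure (Subgroup.mem_zpowers m)
    obtain ⟨h, h1, h2⟩ := hU.2 (Subgroup.zpowers m).topologicalClosure ⟨m, hm⟩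
    refine ⟨(Subgroup.zpowers m).topologicalClosure.subtype.comp h, ?_, ?_⟩
    · exact continuous_subtype_val.comp h1
    · rw [MonoidHom.comp_apply, h2]
      rfl
  · intro hT hU m
    letI : CommGroup (Subgroup.zpowers m).topologicalClosure :=
      (Subgroup.zpowers m).commGroupTopologicalClosure (hcomm m)
    have hcl : IsClosed ((Subgroup.zpowers m).topologicalClosure : Set M) :=
      (Subgroup.zpowers m).isClosed_topologicalClosure
    haveI : CompactSpace (Subgroup.zpowers m).topologicalClosure := hcl.isClosedEmbedding_subtypeVal.compactSpace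
    have hm : m ∈ (Subgroup.zpowers m).topologicalClosure :=
      (Subgroup.zpowers m).le_topologicalClosure (Subgroup.mem_zpowers m)
    obtain ⟨h, h1, h2⟩ := hU.2 (Subgroup.zpowers m).topologicalClosure ⟨m, hm⟩
    refine ⟨(Subgroup.zpowers m).topologicalClosure.subtype.comp h, ?_, ?_⟩
    · exact continuous_subtype_val.comp h1
    · rw [MonoidHom.comp_apply, h2]
      rfl

section

variable {n : ℕ} {F : Type} [Group F] (D : Dat n F) (C : Type) [AddCommGroup C] (c : C)

lemma mk_one_mul (x y : Fin n → C) : mk D C c x 1 * mk D C c y 1 = mk D C c (x + y) 1 := by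
  rw [mk_mul, D.ρ_one, act_one, D.γ_left, vec_zero, add_zero, mul_one]

lemma mk_one_mk (x : Fin n → C) (f : F) : mk D C c x 1 * mk D C c 0 f = mk D C c x f := by
  rw [mk_mul, act_zero, D.γ_left, vec_zero, add_zero, add_zero, one_mul]

lemma mk_conj (x : Fin n → C) (f : F) :
    mk D C c 0 f * mk D C c x 1 = mk D C c (act (D.ρ f) x) 1 * mk D C c 0 f := by
  rw [mk_one_mk, mk_mul, D.γ_right, vec_zero, add_zero, zero_add, mul_one]

lemma mk_mk (f g : F) : mk D C c 0 f * mk D C c 0 g =
    mk D C c (vec c (D.γ f g)) 1 * mk D C c 0 (f * g) := by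
  rw [mk_one_mk, mk_mul, act_zero, add_zero, zero_add]

/-- the inclusion of the commutative subgroup -/
def inc : Multiplicative (Fin n → C) →* E D C c where
  toFun x := mk D C c x.toAdd 1
  map_one' := rfl
  map_mul' x y := (mk_one_mul D C c _ _).symm

end

lemma dense_vec {n : ℕ} {C : Type} [AddCommGroup C] [TopologicalSpace C] {c : C} (hD : Dns C c) :
    DenseRange (vec c : (Fin n → ℤ) → Fin n → C) := by
  intro x
  have h1 : Set.pi Set.univ (fun _ : Fin n => Set.range fun k : ℤ => k • c) ⊆
      Set.range (vec c : (Fin n → ℤ) → Fin n → C) := by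
    intro y hy
    choose v hv using fun i => hy i (Set.mem_univ i)
    exact ⟨v, funext fun i => hv i⟩
  apply closure_mono h1
  rw [closure_pi_set]
  intro i _
  have : closure (Set.range fun k : ℤ => k • c) = Set.univ := hD
  rw [this]
  trivial

theorem t_UNIV : S_UNIV := by
  intro n F _ _ _ _ D C _ _ _ c hD M _ _ _ _ _ hG φ
  set κ : Multiplicative (Fin n → ℤ) →* M := φ.comp (inc D ℤ 1) with hκ
  have hκa : ∀ v : Fin n → ℤ, κ (Multiplicative.ofAdd v) = φ (mk D ℤ 1 v 1) := fun v => rfl
  set A : Subgroup M := κ.range with hA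
  have hcomm : ∀ x y : A, x * y = y * x := by
    rintro ⟨_, ⟨x, rfl⟩⟩ ⟨_, ⟨y, rfl⟩⟩
    apply Subtype.ext
    change κ x * κ y = κ y * κ x
    rw [← map_mul, ← map_mul, mul_comm]
  letI iT : CommGroup A.topologicalClosure := A.commGroupTopologicalClosure hcomm
  have hcl : IsClosed (A.topologicalClosure : Set M) := A.isClosed_topologicalClosure
  have hle : A ≤ A.topologicalClosure := A.le_topologicalClosure
  -- the generators
  have hgen : ∀ i : Fin n, ∃ h : Multiplicative C →* M, Continuous h ∧
      h (Multiplicative.ofAdd c) = κ (Multiplicative.ofAdd (Pi.single i (1 : ℤ))) :=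
    fun i => hG _
  choose h hh1 hh2 using hgen
  have hzs : ∀ (i : Fin n) (k : ℤ), h i (Multiplicative.ofAdd (k • c)) =
      (κ (Multiplicative.ofAdd (Pi.single i (1 : ℤ)))) ^ k := by
    intro i k
    rw [ofAdd_zsmul, map_zpow, hh2]
  have hmem : ∀ (i : Fin n) (x : Multiplicative C), h i x ∈ A.topologicalClosure := by
    intro i x
    have hc2 : IsClosed {x : C | h i (Multiplicative.ofAdd x) ∈ A.topologicalClosure} :=
      hcl.preimage (hh1 i)
    have hsub : closure (Set.range fun k : ℤ => k • c) ⊆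
        {x : C | h i (Multiplicative.ofAdd x) ∈ A.topologicalClosure} := by
      apply closure_minimal _ hc2
      rintro _ ⟨k, rfl⟩
      change h i (Multiplicative.ofAdd (k • c)) ∈ A.topologicalClosure
      rw [hzs]
      exact hle (Subgroup.zpow_mem A (show κ _ ∈ κ.range from ⟨_, rfl⟩) k)
    have hD' : closure (Set.range fun k : ℤ => k • c) = Set.univ := hD
    rw [hD'] at hsub
    exact hsub (Set.mem_univ (Multiplicative.toAdd x))
  -- the homomorphism on the product
  set hT : Fin n → Multiplicative C →* A.topologicalClosure := fun i =>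
    { toFun := fun x => ⟨h i x, hmem i x⟩
      map_one' := Subtype.ext (map_one (h i))
      map_mul' := fun x y => Subtype.ext (map_mul (h i) x y) } with hTd
  have hTc : ∀ i, Continuous (hT i) := fun i => Continuous.subtype_mk (hh1 i) _
  set κT : Multiplicative (Fin n → ℤ) →* A.topologicalClosure :=
    { toFun := fun x => ⟨κ x, hle ⟨x, rfl⟩⟩
      map_one' := Subtype.ext (map_one κ)
      map_mul' := fun x y => Subtype.ext (map_mul κ x y) } with hκT
  set H : (Fin n → C) → A.topologicalClosure := fun x => ∏ i, hT i (Multiplicative.ofAdd (x i))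
    with hH
  haveI : ContinuousMul A.topologicalClosure := inferInstance
  have hHc : Continuous H := by
    apply continuous_finset_prod
    intro i _
    exact (hTc i).comp (continuous_apply i)
  have hHadd : ∀ x y, H (x + y) = H x * H y := by
    intro x y
    rw [hH]
    simp only
    rw [← Finset.prod_mul_distrib]
    apply Finset.prod_congr rfl
    intro i _
    rw [← map_mul]
    rfl
  have hHvec : ∀ v : Fin n → ℤ, H (vec c v) = κT (Multiplicative.ofAdd v) := by
    intro v
    have e1 : ∀ i, hT i (Multiplicative.ofAdd (v i • c)) =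
        (κT (Multiplicative.ofAdd (Pi.single i (1 : ℤ)))) ^ (v i) := by
      intro i
      have : (κT (Multiplicative.ofAdd (Pi.single i (1 : ℤ)))) ^ (v i) =
          κT ((Multiplicative.ofAdd (Pi.single i (1 : ℤ))) ^ (v i)) := (map_zpow κT _ _).symm
      rw [this]
      apply Subtype.ext
      change h i (Multiplicative.ofAdd (v i • c)) = κ _
      rw [hzs, map_zpow]
    have e2 : H (vec c v) = ∏ i, κT ((Multiplicative.ofAdd (Pi.single i (1 : ℤ))) ^ (v i)) := by
      rw [hH]
      apply Finset.prod_congr rfl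
      intro i _
      change hT i (Multiplicative.ofAdd (v i • c)) = _
      rw [e1, map_zpow]
    rw [e2, ← map_prod]
    congr 1
    have e3 : ∀ i : Fin n, (Multiplicative.ofAdd (Pi.single i (1 : ℤ) : Fin n → ℤ)) ^ (v i) =
        Multiplicative.ofAdd (Pi.single i (v i)) := by
      intro i
      rw [← ofAdd_zsmul, ← Pi.single_smul']
      simp
    simp only [e3]
    rw [← ofAdd_sum]
    congr 1
    exact Finset.univ_sum_single v
  have hHvec' : ∀ v : Fin n → ℤ, (H (vec c v) : M) = φ (mk D ℤ 1 v 1) := by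
    intro v
    rw [hHvec]
    rfl
  have hdv := dense_vec (n := n) hD
  have hconj : ∀ (f : F) (y : Fin n → C),
      φ (mk D ℤ 1 0 f) * (H y : M) = (H (act (D.ρ f) y) : M) * φ (mk D ℤ 1 0 f) := by
    intro f y
    have k1 : Continuous fun y : Fin n → C => φ (mk D ℤ 1 0 f) * (H y : M) :=
      continuous_const.mul (continuous_subtype_val.comp hHc)
    have k2 : Continuous fun y : Fin n → C => (H (act (D.ρ f) y) : M) * φ (mk D ℤ 1 0 f) :=
      (continuous_subtype_val.comp (hHc.comp (act_continuous (D.ρ f)))).mul continuous_const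
    have k3 := hdv.equalizer k1 k2 (by
      funext v
      simp only [Function.comp_apply]
      rw [act_vec, hHvec', hHvec', ← map_mul, ← map_mul, mk_conj])
    exact congrFun k3 y
  -- the homomorphism
  have hmulE : ∀ z w : E D C c, (H (z * w).1 : M) * φ (mk D ℤ 1 0 (z * w).2) =
      ((H z.1 : M) * φ (mk D ℤ 1 0 z.2)) * ((H w.1 : M) * φ (mk D ℤ 1 0 w.2)) := by
    intro z w
    have e1 : (z * w).1 = z.1 + act (D.ρ z.2) w.1 + vec c (D.γ z.2 w.2) := rfl
    have e2 : (z * w).2 = z.2 * w.2 := rfl
    have hHm : ∀ x y, (H (x + y) : M) = (H x : M) * (H y : M) := fun x y => by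
      rw [hHadd]; rfl
    rw [e1, e2, hHm, hHm]
    have e3 : φ (mk D ℤ 1 0 z.2) * φ (mk D ℤ 1 0 w.2) =
        (H (vec c (D.γ z.2 w.2)) : M) * φ (mk D ℤ 1 0 (z.2 * w.2)) := by
      rw [hHvec', ← map_mul, ← map_mul, mk_mk, vec_one]
    calc (H z.1 : M) * (H (act (D.ρ z.2) w.1) : M) * (H (vec c (D.γ z.2 w.2)) : M) *
          φ (mk D ℤ 1 0 (z.2 * w.2))
        = (H z.1 : M) * (H (act (D.ρ z.2) w.1) : M) *
          ((H (vec c (D.γ z.2 w.2)) : M) * φ (mk D ℤ 1 0 (z.2 * w.2))) := by group
      _ = (H z.1 : M) * (H (act (D.ρ z.2) w.1) : M) *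
          (φ (mk D ℤ 1 0 z.2) * φ (mk D ℤ 1 0 w.2)) := by rw [e3]
      _ = (H z.1 : M) * ((H (act (D.ρ z.2) w.1) : M) * φ (mk D ℤ 1 0 z.2)) *
          φ (mk D ℤ 1 0 w.2) := by group
      _ = (H z.1 : M) * (φ (mk D ℤ 1 0 z.2) * (H w.1 : M)) * φ (mk D ℤ 1 0 w.2) := by
          rw [hconj]
      _ = _ := by group
  have hone : (H (1 : E D C c).1 : M) * φ (mk D ℤ 1 0 (1 : E D C c).2) = 1 := by
    have e1 : (1 : E D C c).1 = vec c (0 : Fin n → ℤ) := (vec_zero c).symm
    have e2 : (1 : E D C c).2 = 1 := rfl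
    rw [e1, e2, hHvec', ← map_mul, mk_one_mul, add_zero]
    exact map_one φ
  let hE : E D C c →* M :=
    { toFun := fun z => (H z.1 : M) * φ (mk D ℤ 1 0 z.2)
      map_one' := hone
      map_mul' := hmulE }
  have hEc : Continuous hE := by
    have k1 : Continuous fun q : (Fin n → C) × F => (H q.1 : M) * φ (mk D ℤ 1 0 q.2) := by
      refine (continuous_subtype_val.comp (hHc.comp continuous_fst)).mul ?_
      have k2 : Continuous fun f : F => φ (mk D ℤ 1 0 f) := continuous_of_discreteTopology
      exact k2.comp continuous_snd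
    exact k1
  have hEι : hE.comp (ι D C c) = φ := by
    apply MonoidHom.ext
    intro z
    change (H (vec c z.1) : M) * φ (mk D ℤ 1 0 z.2) = φ z
    rw [hHvec', ← map_mul, mk_one_mk]
    rfl
  refine ⟨hE, ⟨hEc, hEι⟩, ?_⟩
  rintro h' ⟨hc', hι'⟩
  have hdr : DenseRange (fun q : (Fin n → ℤ) × F => ((vec c q.1, q.2) : (Fin n → C) × F)) :=
    hdv.prodMap (denseRange_id (X := F))
  have hc1 : Continuous (fun q : (Fin n → C) × F => h' (mk D C c q.1 q.2)) := hc'
  have hc2 : Continuous (fun q : (Fin n → C) × F => hE (mk D C c q.1 q.2)) := hEc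
  have heq := hdr.equalizer hc1 hc2 (by
    funext q
    have k1 : h' (ι D C c (mk D ℤ 1 q.1 q.2)) = φ (mk D ℤ 1 q.1 q.2) := by
      rw [← hι']; rfl
    have k2 : hE (ι D C c (mk D ℤ 1 q.1 q.2)) = φ (mk D ℤ 1 q.1 q.2) := by
      conv_rhs => rw [← hEι]
      rfl
    exact k1.trans k2.symm)
  apply MonoidHom.ext
  rintro ⟨x, f⟩
  exact congrFun heq (x, f)

end Pool.Agent.Run7.h888.BR
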